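import Pool.Agent.H66.NM.Step

/-!
# NM Births: the dangerous intervals born at one scale
-/

set_option autoImplicit false

namespace Pool.Agent.H66.NM

open Finset

theorem tsum_ite_le {α : Type*} (S : α → Prop) [DecidablePred S] (v : ENNReal) (K : ℕ)
    (f : α → ℕ) (hf : ∀ p, S p → f p < K) (hi : ∀ p q, S p → S q → f p = f q → p = q) :
    ∑' p, (if S p then v else 0) ≤ K * v := by
  have h1 : ∑' p, (if S p then v else 0) = ∑' _ : {p // S p}, v := by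
    have h2 := tsum_subtype {p | S p} (fun _ => v)
    rw [show (∑' _ : {p // S p}, v) = ∑' x : ({p | S p} : Set α), (fun _ => v) (x : α) from rfl, h2]
    refine tsum_congr fun p => ?_
    simp [Set.indicator]
  rw [h1]
  let g : {p // S p} → Fin K := fun p => ⟨f p, hf p p.2⟩
  have hg : Function.Injective g := by
    intro p q hpq
    have h3 : f p = f q := congrArg Fin.val hpq
    exact Subtype.ext (hi p q p.2 q.2 h3)
  calc ∑' _ : {p // S p}, v = ∑' p : {p // S p}, (fun _ : Fin K => v) (g p) := rfl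
    _ ≤ ∑' k : Fin K, (fun _ : Fin K => v) k := ENNReal.tsum_comp_le_tsum_of_injective hg _
    _ = K * v := by simp

/-- distinct reduced fractions. -/
theorem frac_ne {m m' : ℕ} {b b' : ℤ} (hm : 1 ≤ m) (hm' : 1 ≤ m') (hc : IsCoprime b (m : ℤ))
    (hc' : IsCoprime b' (m' : ℤ)) (hne : (m, b) ≠ (m', b')) : b * m' - b' * m ≠ 0 := by
  intro h
  have h1 : b * m' = b' * m := by linarith
  have h2 : (m : ℤ) ∣ m' := by
    have : (m : ℤ) ∣ b * m' := ⟨b', by rw [h1]; ring⟩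
    exact hc.symm.dvd_of_dvd_mul_left this
  have h3 : (m' : ℤ) ∣ m := by
    have : (m' : ℤ) ∣ b' * m := ⟨b, by rw [← h1]; ring⟩
    exact hc'.symm.dvd_of_dvd_mul_left this
  have h4 : m = m' := Nat.dvd_antisymm (by exact_mod_cast h2) (by exact_mod_cast h3)
  subst h4
  have h5 : b = b' := by
    have : (m : ℤ) ≠ 0 := by positivity
    exact mul_right_cancel₀ this h1
  exact hne (by rw [h5])

/-- the centres of one level, born at one scale, are separated. -/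
theorem sep {T R h m m' : ℕ} {b b' : ℤ} (hT : 1 ≤ T) (hm : 1 ≤ m) (hm' : 1 ≤ m')
    (hc : IsCoprime b (m : ℤ)) (hc' : IsCoprime b' (m' : ℤ)) (hne : (m, b) ≠ (m', b'))
    (h1 : T * m ^ 2 < R ^ (h + 1)) (h2 : T * m' ^ 2 < R ^ (h + 1)) :
    1 < |(b : ℝ) / ((T : ℝ) * m) - b' / ((T : ℝ) * m')| * (R : ℝ) ^ (h + 1) := by
  have hT' : (0 : ℝ) < T := by exact_mod_cast hT
  have hmr : (0 : ℝ) < m := by exact_mod_cast hm
  have hmr' : (0 : ℝ) < m' := by exact_mod_cast hm'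
  have h3 : (b : ℝ) / ((T : ℝ) * m) - b' / ((T : ℝ) * m') =
      ((b * m' - b' * m : ℤ) : ℝ) / ((T : ℝ) * m * m') := by
    push_cast
    field_simp
  have h4 : (1 : ℝ) ≤ |((b * m' - b' * m : ℤ) : ℝ)| := by
    rw [← Int.cast_abs]
    exact_mod_cast Int.one_le_abs (frac_ne hm hm' hc hc' hne)
  have h5 : T * m * m' < R ^ (h + 1) := by
    rcases le_total m m' with h6 | h6
    · refine lt_of_le_of_lt ?_ h2
      calc T * m * m' ≤ T * m' * m' := by gcongr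
        _ = T * m' ^ 2 := by ring
    · refine lt_of_le_of_lt ?_ h1
      calc T * m * m' ≤ T * m * m := by gcongr
        _ = T * m ^ 2 := by ring
  have h6 : (T : ℝ) * m * m' < (R : ℝ) ^ (h + 1) := by exact_mod_cast h5
  have hp : (0 : ℝ) < (T : ℝ) * m * m' := by positivity
  rw [h3, abs_div, abs_of_pos hp, div_mul_eq_mul_div, lt_div_iff₀ hp, one_mul]
  calc (T : ℝ) * m * m' < (R : ℝ) ^ (h + 1) := h6
    _ = 1 * (R : ℝ) ^ (h + 1) := (one_mul _).symm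
    _ ≤ |((b * m' - b' * m : ℤ) : ℝ)| * (R : ℝ) ^ (h + 1) :=
        mul_le_mul_of_nonneg_right h4 (by positivity)

/-- counting the centres of one level near an interval. -/
theorem count {T R h : ℕ} (hT : 1 ≤ T) (hR : 1 ≤ R) (x : ℝ) (S : ℕ × ℤ → Prop) [DecidablePred S]
    (hS : ∀ p, S p → 1 ≤ p.1 ∧ IsCoprime p.2 (p.1 : ℤ) ∧ T * p.1 ^ 2 < R ^ (h + 1) ∧
      x - ((R : ℝ) ^ h)⁻¹ / 2 ≤ (p.2 : ℝ) / ((T : ℝ) * p.1) ∧
      (p.2 : ℝ) / ((T : ℝ) * p.1) ≤ x + ((R : ℝ) ^ h)⁻¹ + ((R : ℝ) ^ h)⁻¹ / 2) (v : ENNReal) :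
    ∑' p, (if S p then v else 0) ≤ ((2 * R + 1 : ℕ) : ENNReal) * v := by
  have hR' : (0 : ℝ) < R := by exact_mod_cast hR
  have hp : (0 : ℝ) < (R : ℝ) ^ (h + 1) := by positivity
  have e1 : ((R : ℝ) ^ h)⁻¹ * (R : ℝ) ^ (h + 1) = R := by
    rw [pow_succ]
    field_simp
  refine tsum_ite_le S v (2 * R + 1)
    (fun p => ⌊((p.2 : ℝ) / ((T : ℝ) * p.1) - x + ((R : ℝ) ^ h)⁻¹ / 2) * (R : ℝ) ^ (h + 1)⌋₊)
    (fun p hSp => ?_) (fun p q hSp hSq hpq => ?_)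
  · obtain ⟨-, -, -, h4, h5⟩ := hS p hSp
    have h6 : ((p.2 : ℝ) / ((T : ℝ) * p.1) - x + ((R : ℝ) ^ h)⁻¹ / 2) * (R : ℝ) ^ (h + 1) ≤
        ((2 * R : ℕ) : ℝ) := by
      have h7 : (p.2 : ℝ) / ((T : ℝ) * p.1) - x + ((R : ℝ) ^ h)⁻¹ / 2 ≤ 2 * ((R : ℝ) ^ h)⁻¹ := by
        linarith
      have h8 := mul_le_mul_of_nonneg_right h7 hp.le
      push_cast
      linarith
    exact Nat.lt_succ_of_le (Nat.floor_le_of_le h6)
  · by_contra hne
    obtain ⟨a1, a2, a3, a4, a5⟩ := hS p hSp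
    obtain ⟨b1, b2, b3, b4, b5⟩ := hS q hSq
    have hne' : (p.1, p.2) ≠ (q.1, q.2) := hne
    have h1 := sep hT a1 b1 a2 b2 hne' a3 b3
    set u : ℝ := ((p.2 : ℝ) / ((T : ℝ) * p.1) - x + ((R : ℝ) ^ h)⁻¹ / 2) * (R : ℝ) ^ (h + 1) with hu
    set w : ℝ := ((q.2 : ℝ) / ((T : ℝ) * q.1) - x + ((R : ℝ) ^ h)⁻¹ / 2) * (R : ℝ) ^ (h + 1) with hw
    have hu0 : 0 ≤ u := mul_nonneg (by linarith) hp.le
    have hw0 : 0 ≤ w := mul_nonneg (by linarith) hp.le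
    have hpq' : ⌊u⌋₊ = ⌊w⌋₊ := hpq
    have h2 : |u - w| < 1 := by
      have c1 := Nat.floor_le hu0
      have c2 := Nat.lt_floor_add_one u
      have c3 := Nat.floor_le hw0
      have c4 := Nat.lt_floor_add_one w
      rw [hpq'] at c1 c2
      rw [abs_lt]
      constructor <;> linarith
    have h3 : u - w = ((p.2 : ℝ) / ((T : ℝ) * p.1) - (q.2 : ℝ) / ((T : ℝ) * q.1)) *
        (R : ℝ) ^ (h + 1) := by
      rw [hu, hw]
      ring
    rw [h3, abs_mul, abs_of_pos hp] at h2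
    linarith

/-- the number of doublings. -/
theorem doubling {t : ℕ → ℕ} (ht : ∀ n, 2 * t n ≤ t (n + 1)) (n k : ℕ) :
    2 ^ k * t n ≤ t (n + k) := by
  induction k with
  | zero => simp
  | succ k ih =>
    calc 2 ^ (k + 1) * t n = 2 * (2 ^ k * t n) := by ring
      _ ≤ 2 * t (n + k) := by gcongr
      _ ≤ t (n + k + 1) := ht _

/-- the relation between the level, counted from the top, and `m`. -/
theorem level_log {t : ℕ → ℕ} (ht : ∀ n, 2 * t n ≤ t (n + 1)) {R h M n m : ℕ}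
    (hn : n < M) (hM : t (M - 1) < R ^ (h + 1)) (hm : 1 ≤ m) (hb : R ^ h ≤ t n * m ^ 2) : M - 1 - n + 1 ≤ (R + 2) * (Nat.log 2 m + 1) := by
  set J := M - 1 - n with hJ
  set l := Nat.log 2 m with hl
  have h1 : 2 ^ J * t n ≤ t (M - 1) := by
    have := doubling ht n J
    rwa [show n + J = M - 1 by omega] at this
  have h2 : m < 2 ^ (l + 1) := Nat.lt_pow_succ_log_self (by norm_num) m
  have h3 : 2 ^ J * R ^ h < R ^ (h + 1) * m ^ 2 := by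
    calc 2 ^ J * R ^ h ≤ 2 ^ J * (t n * m ^ 2) := by gcongr
      _ = (2 ^ J * t n) * m ^ 2 := by ring
      _ ≤ t (M - 1) * m ^ 2 := by gcongr
      _ < R ^ (h + 1) * m ^ 2 := by
          have : 0 < m ^ 2 := by positivity
          exact Nat.mul_lt_mul_of_pos_right hM this
  have h4 : 2 ^ J < R * m ^ 2 := by
    have h5 : R ^ h * 2 ^ J < R ^ h * (R * m ^ 2) := by
      calc R ^ h * 2 ^ J = 2 ^ J * R ^ h := by ring
        _ < R ^ (h + 1) * m ^ 2 := h3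
        _ = R ^ h * (R * m ^ 2) := by ring
    exact lt_of_mul_lt_mul_left h5 (Nat.zero_le _)
  have h5 : R * m ^ 2 ≤ 2 ^ R * (2 ^ (l + 1)) ^ 2 := by
    have h6 : R ≤ 2 ^ R := Nat.lt_two_pow_self.le
    gcongr
  have h6 : 2 ^ J < 2 ^ (R + 2 * (l + 1)) := by
    refine h4.trans_le (h5.trans_eq ?_)
    rw [← pow_mul, ← pow_add, mul_comm (l + 1) 2]
  have h7 : J < R + 2 * (l + 1) := (Nat.pow_lt_pow_iff_right (by norm_num)).1 h6
  calc J + 1 ≤ R + 2 * (l + 1) := h7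
    _ ≤ R * (l + 1) + 2 * (l + 1) := by nlinarith
    _ = (R + 2) * (l + 1) := by ring

/-- the weights. -/
noncomputable def cc (κ ε : ℝ) (j n m : ℕ) : ℝ :=
  κ / (4 ^ j * ((1 + min n (Nat.log 2 m) : ℕ) : ℝ) ^ (1 + ε))

/-- reduced indices `(j, n, m, b)`. -/
abbrev Idx : Type := {i : ℕ × ℕ × ℕ × ℤ // 1 ≤ i.2.2.1 ∧ IsCoprime i.2.2.2 (i.2.2.1 : ℤ)}

noncomputable def yy (t : ℕ → ℕ → ℕ) (i : Idx) : ℝ :=
  (i.1.2.2.2 : ℝ) / ((t i.1.1 i.1.2.1 : ℝ) * i.1.2.2.1)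

noncomputable def rr (t : ℕ → ℕ → ℕ) (κ ε : ℝ) (i : Idx) : ℝ :=
  cc κ ε i.1.1 i.1.2.1 i.1.2.2.1 / ((t i.1.1 i.1.2.1 : ℝ) * (i.1.2.2.1 : ℝ) ^ 2)

def bs (t : ℕ → ℕ → ℕ) (R : ℕ) (i : Idx) : ℕ :=
  Nat.log R (t i.1.1 i.1.2.1 * i.1.2.2.1 ^ 2)

theorem cc_pos {κ ε : ℝ} (hκ : 0 < κ) (j n m : ℕ) : 0 < cc κ ε j n m := by
  unfold cc
  positivity

theorem cc_le {κ ε : ℝ} (hκ : 0 < κ) (hε : 0 < ε) (j n m : ℕ) : cc κ ε j n m ≤ κ := by
  unfold cc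
  refine div_le_self hκ.le ?_
  have h1 : (1 : ℝ) ≤ 4 ^ j := one_le_pow₀ (by norm_num)
  have h2 : (1 : ℝ) ≤ ((1 + min n (Nat.log 2 m) : ℕ) : ℝ) := by
    exact_mod_cast Nat.le_add_right 1 _
  have h3 : (1 : ℝ) ≤ ((1 + min n (Nat.log 2 m) : ℕ) : ℝ) ^ (1 + ε) :=
    Real.one_le_rpow h2 (by linarith)
  nlinarith

/-- the power `s` of a weight. -/
theorem weight_le {κ ε s a : ℝ} (hκ : 0 < κ) (hε : 0 < ε) (hs : 1 / 2 ≤ s) (ha : a = (1 + ε) * s)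
    {R j n l J : ℕ} (hJ : J + 1 ≤ (R + 2) * (l + 1)) :
    (2 * (κ / (4 ^ j * ((1 + min n l : ℕ) : ℝ) ^ (1 + ε)))) ^ s ≤
      (2 * κ) ^ s * (1 / 2) ^ j * ((((n + 1 : ℕ) : ℝ) ^ a)⁻¹ +
        ((R : ℝ) + 2) ^ a * (((J + 1 : ℕ) : ℝ) ^ a)⁻¹) := by
  have hs0 : 0 < s := by linarith
  have ha0 : 0 < a := by rw [ha]; positivity
  set w : ℝ := ((1 + min n l : ℕ) : ℝ) with hw
  have hw1 : 1 ≤ w := by
    rw [hw]
    exact_mod_cast Nat.le_add_right 1 _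
  have hw0 : 0 < w := by linarith
  have e1 : 2 * (κ / (4 ^ j * w ^ (1 + ε))) = (2 * κ) * (((4 : ℝ) ^ j)⁻¹ * (w ^ (1 + ε))⁻¹) := by
    field_simp
  have hk2 : (0 : ℝ) ≤ 2 * κ := by positivity
  have e4 : (((4 : ℝ) ^ j)⁻¹ * (w ^ (1 + ε))⁻¹) ^ s = (((4 : ℝ) ^ j)⁻¹) ^ s * ((w ^ (1 + ε))⁻¹) ^ s :=
    Real.mul_rpow (by positivity) (by positivity)
  rw [e1, Real.mul_rpow hk2 (by positivity), e4, mul_assoc ((2 * κ) ^ s) ((1 / 2) ^ j)]
  have hk : (0 : ℝ) ≤ (2 * κ) ^ s := by positivity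
  refine mul_le_mul_of_nonneg_left ?_ hk
  refine mul_le_mul ?_ ?_ (by positivity) (by positivity)
  · have e2 : ((4 : ℝ) ^ j)⁻¹ = ((1 / 2 : ℝ) ^ j) ^ (2 : ℝ) := by
      rw [← inv_pow, Real.rpow_two, ← pow_mul, mul_comm j 2, pow_mul]
      norm_num
    rw [e2, ← Real.rpow_mul (by positivity)]
    calc ((1 / 2 : ℝ) ^ j) ^ (2 * s) ≤ ((1 / 2 : ℝ) ^ j) ^ (1 : ℝ) :=
          Real.rpow_le_rpow_of_exponent_ge (by positivity)
            (pow_le_one₀ (by norm_num) (by norm_num)) (by linarith)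
      _ = (1 / 2) ^ j := Real.rpow_one _
  · have e3 : ((w ^ (1 + ε))⁻¹) ^ s = (w ^ a)⁻¹ := by
      rw [Real.inv_rpow (by positivity), ← Real.rpow_mul hw0.le, ha]
    rw [e3]
    rcases le_total n l with h1 | h1
    · have h2 : w = ((n + 1 : ℕ) : ℝ) := by
        rw [hw, min_eq_left h1, add_comm]
      rw [h2]
      have h6 : (0 : ℝ) ≤ ((R : ℝ) + 2) ^ a * (((J + 1 : ℕ) : ℝ) ^ a)⁻¹ := by positivity
      exact le_add_of_nonneg_right h6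
    · have h2 : w = ((l + 1 : ℕ) : ℝ) := by
        rw [hw, min_eq_right h1, add_comm]
      have h3 : ((J + 1 : ℕ) : ℝ) ≤ ((R : ℝ) + 2) * w := by
        rw [h2]
        exact_mod_cast hJ
      have h4 : ((J + 1 : ℕ) : ℝ) ^ a ≤ ((R : ℝ) + 2) ^ a * w ^ a := by
        rw [← Real.mul_rpow (by positivity) hw0.le]
        exact Real.rpow_le_rpow (by positivity) h3 ha0.le
      have h5 : (w ^ a)⁻¹ ≤ ((R : ℝ) + 2) ^ a * (((J + 1 : ℕ) : ℝ) ^ a)⁻¹ := by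
        have hwa : 0 < w ^ a := by positivity
        have hJa : 0 < ((J + 1 : ℕ) : ℝ) ^ a := by positivity
        rw [inv_le_iff_one_le_mul₀ hwa, mul_assoc, mul_comm ((((J + 1 : ℕ) : ℝ) ^ a)⁻¹),
          ← mul_assoc, ← div_eq_mul_inv, one_le_div hJa]
        exact h4
      have h6 : (0 : ℝ) ≤ (((n + 1 : ℕ) : ℝ) ^ a)⁻¹ := by positivity
      linarith

end Pool.Agent.H66.NM
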