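import Pool.Agent.H66.NM.Births

/-!
# NM Births2: the potential of the births at one scale
-/

set_option autoImplicit false

namespace Pool.Agent.H66.NM

open Finset

theorem tsum_half {C : ℝ} (hC : 0 ≤ C) :
    ∑' j : ℕ, ENNReal.ofReal (C * (1 / 2) ^ j) = ENNReal.ofReal (2 * C) := by
  have h1 : Summable fun j : ℕ => C * (1 / 2 : ℝ) ^ j := summable_geometric_two.mul_left C
  rw [← ENNReal.ofReal_tsum_of_nonneg (fun j => by positivity) h1, tsum_mul_left,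
    tsum_geometric_two, mul_comm]

/-- the sum over the levels. -/
theorem sum_levels {C a Z : ℝ} (hC : 0 ≤ C)
    (hZ : ∀ M : ℕ, ∑ n ∈ range M, (((n + 1 : ℕ) : ℝ) ^ a)⁻¹ ≤ Z) (R M : ℕ) :
    ∑ n ∈ range M, ENNReal.ofReal (C * ((((n + 1 : ℕ) : ℝ) ^ a)⁻¹ +
        ((R : ℝ) + 2) ^ a * (((M - 1 - n + 1 : ℕ) : ℝ) ^ a)⁻¹)) ≤
      ENNReal.ofReal (C * ((1 + ((R : ℝ) + 2) ^ a) * Z)) := by
  rw [← ENNReal.ofReal_sum_of_nonneg (fun n _ => by positivity)]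
  refine ENNReal.ofReal_le_ofReal ?_
  rw [← mul_sum, sum_add_distrib, ← mul_sum]
  refine mul_le_mul_of_nonneg_left ?_ hC
  have h1 := Finset.sum_range_reflect (fun k : ℕ => (((k + 1 : ℕ) : ℝ) ^ a)⁻¹) M
  rw [h1]
  have h2 := hZ M
  have h3 := mul_le_mul_of_nonneg_left h2 (show (0 : ℝ) ≤ ((R : ℝ) + 2) ^ a by positivity)
  nlinarith

theorem births {κ ε s a Z : ℝ} (hκ0 : 0 < κ) (hκ : κ ≤ 1 / 2) (hε : 0 < ε) (hs : 1 / 2 ≤ s)
    (ha : a = (1 + ε) * s) (t : ℕ → ℕ → ℕ) (ht0 : ∀ j n, 1 ≤ t j n)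
    (ht : ∀ j n, 2 * t j n ≤ t j (n + 1)) {R : ℕ} (hR : 2 ≤ R)
    (hZ : ∀ M : ℕ, ∑ n ∈ range M, (((n + 1 : ℕ) : ℝ) ^ a)⁻¹ ≤ Z) (h : ℕ) (x : ℝ) :
    Psi (yy t) (rr t κ ε) R s (fun i => bs t R i = h) h x ≤
      ENNReal.ofReal (2 * (((2 * R + 1 : ℕ) : ℝ) * ((2 * κ) ^ s * ((1 + ((R : ℝ) + 2) ^ a) * Z)))) := by
  classical
  have hR' : (0 : ℝ) < R := by exact_mod_cast (by omega : 0 < R)
  have hs0 : 0 < s := by linarith
  have ha0 : 0 < a := by rw [ha]; positivity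
  have hZ0 : 0 ≤ Z := by simpa using hZ 0
  have hδ : (0 : ℝ) < ((R : ℝ) ^ h)⁻¹ := by positivity
  -- the number of levels
  have hex : ∀ j, ∃ n, R ^ (h + 1) ≤ t j n := by
    intro j
    refine ⟨R ^ (h + 1), ?_⟩
    have h1 := doubling (ht j) 0 (R ^ (h + 1))
    rw [zero_add] at h1
    have h2 : R ^ (h + 1) < 2 ^ (R ^ (h + 1)) := Nat.lt_two_pow_self
    calc R ^ (h + 1) ≤ 2 ^ (R ^ (h + 1)) * 1 := by omega
      _ ≤ 2 ^ (R ^ (h + 1)) * t j 0 := Nat.mul_le_mul_left _ (ht0 j 0)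
      _ ≤ _ := h1
  let M : ℕ → ℕ := fun j => Nat.find (hex j)
  have hM1 : ∀ j n, n < M j → t j n < R ^ (h + 1) := fun j n hn =>
    not_le.1 (Nat.find_min (hex j) hn)
  have hM2 : ∀ j n, M j ≤ n → R ^ (h + 1) ≤ t j n := by
    intro j n hn
    refine (Nat.find_spec (hex j)).trans ?_
    exact monotone_nat_of_le_succ (fun n => by have := ht j n; omega) hn
  let S : ℕ → ℕ → ℕ × ℤ → Prop := fun j n p =>
    1 ≤ p.1 ∧ IsCoprime p.2 (p.1 : ℤ) ∧ t j n * p.1 ^ 2 < R ^ (h + 1) ∧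
      x - ((R : ℝ) ^ h)⁻¹ / 2 ≤ (p.2 : ℝ) / ((t j n : ℝ) * p.1) ∧
      (p.2 : ℝ) / ((t j n : ℝ) * p.1) ≤ x + ((R : ℝ) ^ h)⁻¹ + ((R : ℝ) ^ h)⁻¹ / 2
  let V : ℕ → ℕ → ENNReal := fun j n =>
    ENNReal.ofReal ((2 * κ) ^ s * (1 / 2) ^ j * ((((n + 1 : ℕ) : ℝ) ^ a)⁻¹ +
        ((R : ℝ) + 2) ^ a * (((M j - 1 - n + 1 : ℕ) : ℝ) ^ a)⁻¹))
  let F : ℕ × ℕ × ℕ × ℤ → ENNReal := fun i => if S i.1 i.2.1 i.2.2 then V i.1 i.2.1 else 0
  have hSn : ∀ j n p, M j ≤ n → ¬ S j n p := by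
    rintro j n p hn ⟨h1, -, h2, -⟩
    have h3 := hM2 j n hn
    have h4 : t j n * 1 ≤ t j n * p.1 ^ 2 := Nat.mul_le_mul_left _ (Nat.one_le_pow _ _ h1)
    omega
  -- pointwise
  have key : ∀ i : Idx, (if bs t R i = h ∧ Meets (yy t) (rr t κ ε) R h x i then
      tm (rr t κ ε) R s h i else 0) ≤ F i.1 := by
    rintro ⟨⟨j, n, m, b⟩, hm, hc⟩
    change 1 ≤ m at hm
    change IsCoprime b (m : ℤ) at hc
    by_cases hi : bs t R ⟨⟨j, n, m, b⟩, hm, hc⟩ = h ∧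
        Meets (yy t) (rr t κ ε) R h x ⟨⟨j, n, m, b⟩, hm, hc⟩
    swap
    · rw [if_neg hi]
      exact zero_le
    rw [if_pos hi]
    obtain ⟨hb, hme⟩ := hi
    have hb' : Nat.log R (t j n * m ^ 2) = h := hb
    have hsz : t j n * m ^ 2 ≠ 0 := by
      have := ht0 j n
      positivity
    have hb1 : R ^ h ≤ t j n * m ^ 2 := by
      rw [← hb']
      exact Nat.pow_log_le_self R hsz
    have hb2 : t j n * m ^ 2 < R ^ (h + 1) := by
      rw [← hb']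
      exact Nat.lt_pow_succ_log_self (by omega) _
    have hmr : (0 : ℝ) < m := by exact_mod_cast hm
    have htr : (0 : ℝ) < t j n := by exact_mod_cast ht0 j n
    have hsr : (R : ℝ) ^ h ≤ (t j n : ℝ) * (m : ℝ) ^ 2 := by exact_mod_cast hb1
    have hp : (0 : ℝ) < (R : ℝ) ^ h := by positivity
    have hcc := cc_pos hκ0 (ε := ε) j n m
    have hr1 : rr t κ ε ⟨⟨j, n, m, b⟩, hm, hc⟩ = cc κ ε j n m / ((t j n : ℝ) * (m : ℝ) ^ 2) := rfl
    have hy1 : yy t ⟨⟨j, n, m, b⟩, hm, hc⟩ = (b : ℝ) / ((t j n : ℝ) * m) := rfl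
    have hr2 : rr t κ ε ⟨⟨j, n, m, b⟩, hm, hc⟩ * (R : ℝ) ^ h ≤ cc κ ε j n m := by
      rw [hr1, div_mul_eq_mul_div, div_le_iff₀ (by positivity)]
      exact mul_le_mul_of_nonneg_left hsr hcc.le
    have hr3 : rr t κ ε ⟨⟨j, n, m, b⟩, hm, hc⟩ ≤ ((R : ℝ) ^ h)⁻¹ / 2 := by
      have h1 : rr t κ ε ⟨⟨j, n, m, b⟩, hm, hc⟩ * (R : ℝ) ^ h ≤ 1 / 2 :=
        hr2.trans ((cc_le hκ0 hε j n m).trans hκ)
      have h2 := mul_le_mul_of_nonneg_right h1 hδ.le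
      rw [mul_assoc, mul_inv_cancel₀ hp.ne', mul_one] at h2
      linarith
    have hnM : n < M j := by
      by_contra hcon
      have h1 := hM2 j n (not_lt.1 hcon)
      have h4 : t j n * 1 ≤ t j n * m ^ 2 := Nat.mul_le_mul_left _ (Nat.one_le_pow _ _ hm)
      omega
    have hS : S j n (m, b) := by
      refine ⟨hm, hc, hb2, ?_, ?_⟩
      · have h1 := hme.1
        rw [hy1] at h1
        change x - ((R : ℝ) ^ h)⁻¹ / 2 ≤ (b : ℝ) / ((t j n : ℝ) * m)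
        linarith
      · have h1 := hme.2
        rw [hy1] at h1
        change (b : ℝ) / ((t j n : ℝ) * m) ≤ x + ((R : ℝ) ^ h)⁻¹ + ((R : ℝ) ^ h)⁻¹ / 2
        linarith
    change tm (rr t κ ε) R s h ⟨⟨j, n, m, b⟩, hm, hc⟩ ≤ if S j n (m, b) then V j n else 0
    rw [if_pos hS]
    unfold tm
    refine ENNReal.ofReal_le_ofReal ?_
    refine le_trans ?_ (weight_le hκ0 hε hs ha
      (level_log (ht j) hnM (hM1 j (M j - 1) (by omega)) hm hb1))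
    refine Real.rpow_le_rpow ?_ ?_ hs0.le
    · rw [hr1]
      positivity
    · have h1 : 2 * rr t κ ε ⟨⟨j, n, m, b⟩, hm, hc⟩ * (R : ℝ) ^ h =
        2 * (rr t κ ε ⟨⟨j, n, m, b⟩, hm, hc⟩ * (R : ℝ) ^ h) := by ring
      rw [h1]
      exact mul_le_mul_of_nonneg_left hr2 (by norm_num)
  -- summation
  have hsum : ∑' i, F i = ∑' j, ∑' n, ∑' p, (if S j n p then V j n else 0) := by
    rw [ENNReal.tsum_prod' (f := F)]
    refine tsum_congr fun j => ?_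
    rw [ENNReal.tsum_prod' (f := fun q : ℕ × ℕ × ℤ => F (j, q))]
  have hj : ∀ j, ∑' n, ∑' p, (if S j n p then V j n else 0) ≤
      ENNReal.ofReal ((((2 * R + 1 : ℕ) : ℝ) * ((2 * κ) ^ s * ((1 + ((R : ℝ) + 2) ^ a) * Z))) *
        (1 / 2) ^ j) := by
    intro j
    have h1 : ∑' n, ∑' p, (if S j n p then V j n else 0) =
        ∑ n ∈ range (M j), ∑' p, (if S j n p then V j n else 0) := by
      refine tsum_eq_sum fun n hn => ?_
      rw [mem_range, not_lt] at hn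
      refine ENNReal.tsum_eq_zero.2 fun p => ?_
      rw [if_neg (hSn j n p hn)]
    rw [h1]
    have h2 : ∀ n ∈ range (M j), ∑' p, (if S j n p then V j n else 0) ≤
        ((2 * R + 1 : ℕ) : ENNReal) * V j n := fun n _ =>
      count (ht0 j n) (by omega) x (S j n) (fun p hp => hp) (V j n)
    refine (sum_le_sum h2).trans ?_
    rw [← mul_sum]
    have h3 := sum_levels (C := (2 * κ) ^ s * (1 / 2) ^ j) (by positivity) hZ R (M j)
    refine (mul_le_mul_right h3 _).trans_eq ?_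
    rw [← ENNReal.ofReal_natCast, ← ENNReal.ofReal_mul (Nat.cast_nonneg _)]
    congr 1
    ring
  have key2 : Psi (yy t) (rr t κ ε) R s (fun i => bs t R i = h) h x ≤ ∑' i : Idx, F i.1 := by
    unfold Psi
    refine ENNReal.tsum_le_tsum fun i => ?_
    refine le_trans (le_of_eq ?_) (key i)
    congr
  refine key2.trans ?_
  refine (ENNReal.tsum_comp_le_tsum_of_injective Subtype.val_injective F).trans ?_
  rw [hsum]
  refine (ENNReal.tsum_le_tsum hj).trans_eq ?_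
  rw [tsum_half (by positivity)]

end Pool.Agent.H66.NM
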