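import Pool.Agent.H66.NM.Tree
import Pool.Agent.H66.NM.Births2
import Pool.Agent.H8.TAK.Dim

/-!
# NM Main: parameters, reduced and unreduced fractions
-/

set_option autoImplicit false

namespace Pool.Agent.H66.NM

open Finset Filter

theorem cc_anti {κ ε : ℝ} (hκ : 0 < κ) (hε : 0 < ε) (j n : ℕ) {m m' : ℕ} (h : m' ≤ m) :
    cc κ ε j n m ≤ cc κ ε j n m' := by
  unfold cc
  refine div_le_div_of_nonneg_left hκ.le (by positivity) ?_
  refine mul_le_mul_of_nonneg_left ?_ (by positivity)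
  refine Real.rpow_le_rpow (by positivity) ?_ (by linarith)
  have : Nat.log 2 m' ≤ Nat.log 2 m := Nat.log_mono_right h
  exact_mod_cast Nat.add_le_add_left (min_le_min_left n this) 1

/-- reducing a fraction. -/
theorem reduce (b : ℤ) {m : ℕ} (hm : 1 ≤ m) :
    ∃ (g m' : ℕ) (b' : ℤ), 1 ≤ g ∧ 1 ≤ m' ∧ IsCoprime b' (m' : ℤ) ∧ m = g * m' ∧ b = g * b' := by
  set ρ : ℚ := (b : ℚ) / ((m : ℤ) : ℚ) with hρ
  have h1 : ((ρ.den : ℕ) : ℤ) ∣ (m : ℤ) := by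
    rw [hρ, ← Rat.divInt_eq_div]
    exact Rat.den_dvd b m
  have h2 : ρ.den ∣ m := by exact_mod_cast h1
  obtain ⟨g, hg⟩ := h2
  have hg1 : 1 ≤ g := by
    rcases Nat.eq_zero_or_pos g with h | h
    · rw [h, mul_zero] at hg
      omega
    · exact h
  refine ⟨g, ρ.den, ρ.num, hg1, ρ.den_pos, ?_, by rw [hg, mul_comm], ?_⟩
  · rw [Int.isCoprime_iff_gcd_eq_one]
    exact ρ.reduced
  · have h3 : (ρ.num : ℚ) / ρ.den = (b : ℚ) / ((m : ℤ) : ℚ) := by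
      rw [Rat.num_div_den]
    have hd : (ρ.den : ℚ) ≠ 0 := by exact_mod_cast ρ.den_pos.ne'
    have hm' : ((m : ℤ) : ℚ) ≠ 0 := by exact_mod_cast (by omega : m ≠ 0)
    rw [div_eq_div_iff hd hm'] at h3
    have h4 : ρ.num * (m : ℤ) = b * ρ.den := by exact_mod_cast h3
    have h5 : ((m : ℕ) : ℤ) = ρ.den * g := by exact_mod_cast hg
    rw [h5] at h4
    have h6 : (ρ.den : ℤ) ≠ 0 := by exact_mod_cast ρ.den_pos.ne'
    have h7 : (g * ρ.num) * (ρ.den : ℤ) = b * ρ.den := by rw [← h4]; ring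
    exact (mul_right_cancel₀ h6 h7).symm

/-- a point outside all dangerous intervals. -/
theorem good_point {κ ε : ℝ} (hκ : 0 < κ) (hε : 0 < ε) (t : ℕ → ℕ → ℕ) (ht0 : ∀ j n, 1 ≤ t j n)
    {α : ℝ} (h : ∀ i : Idx, rr t κ ε i < |α - yy t i|) (j n m : ℕ) (hm : 1 ≤ m) (b : ℤ) :
    cc κ ε j n m ≤ (m : ℝ) * |((t j n * m : ℕ) : ℝ) * α - b| := by
  obtain ⟨g, m', b', hg, hm', hc, rfl, rfl⟩ := reduce b hm
  have h1 := h ⟨⟨j, n, m', b'⟩, hm', hc⟩
  have hr1 : rr t κ ε ⟨⟨j, n, m', b'⟩, hm', hc⟩ =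
    cc κ ε j n m' / ((t j n : ℝ) * (m' : ℝ) ^ 2) := rfl
  have hy1 : yy t ⟨⟨j, n, m', b'⟩, hm', hc⟩ = (b' : ℝ) / ((t j n : ℝ) * m') := rfl
  rw [hr1, hy1] at h1
  have hmr : (0 : ℝ) < m' := by exact_mod_cast hm'
  have htr : (0 : ℝ) < t j n := by exact_mod_cast ht0 j n
  have hgr : (1 : ℝ) ≤ g := by exact_mod_cast hg
  rw [div_lt_iff₀ (by positivity)] at h1
  have h2 : |α - (b' : ℝ) / ((t j n : ℝ) * m')| * ((t j n : ℝ) * (m' : ℝ) ^ 2) =
      m' * |(t j n : ℝ) * m' * α - b'| := by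
    have h3 : (t j n : ℝ) * m' * α - b' = (α - (b' : ℝ) / ((t j n : ℝ) * m')) * ((t j n : ℝ) * m') := by
      field_simp
    rw [h3, abs_mul, abs_of_pos (show (0 : ℝ) < (t j n : ℝ) * m' by positivity)]
    ring
  rw [h2] at h1
  have h4 : ((t j n * (g * m') : ℕ) : ℝ) * α - ((g * b' : ℤ) : ℝ) =
      g * ((t j n : ℝ) * m' * α - b') := by
    push_cast
    ring
  rw [h4, abs_mul, abs_of_pos (by linarith : (0 : ℝ) < g)]
  have h5 : 0 ≤ (m' : ℝ) * |(t j n : ℝ) * m' * α - b'| := by positivity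
  calc cc κ ε j n (g * m') ≤ cc κ ε j n m' := cc_anti hκ hε j n (Nat.le_mul_of_pos_left m' hg)
    _ ≤ m' * |(t j n : ℝ) * m' * α - b'| := h1.le
    _ ≤ (g * g) * (m' * |(t j n : ℝ) * m' * α - b'|) := by
        have : (1 : ℝ) ≤ (g : ℝ) * g := by nlinarith
        nlinarith
    _ = ((g * m' : ℕ) : ℝ) * (g * |(t j n : ℝ) * m' * α - b'|) := by
        push_cast
        ring

/-- the choice of `N`. -/
theorem exists_N {s η : ℝ} (hs1 : s < 1) (hη : η < 1) :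
    ∃ N : ℕ, 2 ≤ N ∧ 12 * ((4 * N : ℕ) : ℝ) ^ s ≤ ((4 * N : ℕ) : ℝ) ∧
      η ≤ Real.log N / Real.log ((4 * N : ℕ) : ℝ) := by
  have h1 : Tendsto (fun N : ℕ => ((4 * N : ℕ) : ℝ)) atTop atTop := by
    refine tendsto_natCast_atTop_atTop.comp ?_
    exact tendsto_id.const_mul_atTop' (by norm_num)
  have h2 := ((tendsto_rpow_atTop (by linarith : 0 < 1 - s)).comp h1).eventually_ge_atTop 12
  have h3 := (Real.tendsto_log_atTop.comp tendsto_natCast_atTop_atTop).eventually_ge_atTop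
    (η * Real.log 4 / (1 - η))
  obtain ⟨N, h4, h5, h6⟩ := (h2.and (h3.and (eventually_ge_atTop 2))).exists
  refine ⟨N, h6, ?_, ?_⟩
  · have h7 : (12 : ℝ) ≤ ((4 * N : ℕ) : ℝ) ^ (1 - s) := h4
    have h8 : (0 : ℝ) < ((4 * N : ℕ) : ℝ) := by exact_mod_cast (by omega : 0 < 4 * N)
    calc 12 * ((4 * N : ℕ) : ℝ) ^ s ≤ ((4 * N : ℕ) : ℝ) ^ (1 - s) * ((4 * N : ℕ) : ℝ) ^ s :=
          mul_le_mul_of_nonneg_right h7 (by positivity)
      _ = ((4 * N : ℕ) : ℝ) := by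
          rw [← Real.rpow_add h8]
          simp
  · have h7 : η * Real.log 4 / (1 - η) ≤ Real.log N := h5
    rw [div_le_iff₀ (by linarith)] at h7
    have hN : (2 : ℝ) ≤ N := by exact_mod_cast h6
    have h8 : Real.log ((4 * N : ℕ) : ℝ) = Real.log 4 + Real.log N := by
      push_cast
      rw [Real.log_mul (by norm_num) (by linarith)]
    have h9 : 0 < Real.log (4 : ℝ) := Real.log_pos (by norm_num)
    have h10 : 0 < Real.log (N : ℝ) := Real.log_pos (by linarith)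
    rw [h8, le_div_iff₀ (by linarith)]
    nlinarith

/-- the main theorem for general level sequences. -/
theorem main (ε η : ℝ) (hε : 0 < ε) (hη : η < 1) :
    ∃ κ : ℝ, 0 < κ ∧ ∀ t : ℕ → ℕ → ℕ, (∀ j n, 1 ≤ t j n) → (∀ j n, 2 * t j n ≤ t j (n + 1)) →
      ENNReal.ofReal η ≤ dimH {α : ℝ | ∀ j n m : ℕ, 1 ≤ m → ∀ b : ℤ,
        cc κ ε j n m ≤ (m : ℝ) * |((t j n * m : ℕ) : ℝ) * α - b|} := by
  have hε1 : (0 : ℝ) < 1 + ε := by linarith
  set s : ℝ := (1 + ε / 2) / (1 + ε) with hs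
  have hs1 : s < 1 := by
    rw [hs, div_lt_one hε1]
    linarith
  have hs2 : 1 / 2 ≤ s := by
    rw [hs, div_le_div_iff₀ (by norm_num) hε1]
    linarith
  have hs0 : 0 < s := by linarith
  set a : ℝ := (1 + ε) * s with ha
  have ha1 : 1 < a := by
    rw [ha, hs, mul_div_cancel₀ _ hε1.ne']
    linarith
  obtain ⟨N, hN2, hN12, hNη⟩ := exists_N hs1 hη
  set R : ℕ := 4 * N with hR
  have hR' : (0 : ℝ) < R := by exact_mod_cast (by omega : 0 < R)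
  have hsum : Summable fun n : ℕ => (((n + 1 : ℕ) : ℝ) ^ a)⁻¹ :=
    (summable_nat_add_iff 1).2 (Real.summable_nat_rpow_inv.2 ha1)
  set Z : ℝ := ∑' n : ℕ, (((n + 1 : ℕ) : ℝ) ^ a)⁻¹ with hZ
  have hZle : ∀ M : ℕ, ∑ n ∈ range M, (((n + 1 : ℕ) : ℝ) ^ a)⁻¹ ≤ Z := fun M =>
    hsum.sum_le_tsum (range M) (fun n _ => by positivity)
  have hZ1 : 1 ≤ Z := by
    have := hZle 1
    simpa using this
  set K : ℝ := 2 * (((2 * R + 1 : ℕ) : ℝ) * ((1 + ((R : ℝ) + 2) ^ a) * Z)) with hK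
  have hK0 : 0 < K := by positivity
  set δ : ℝ := min 1 ((R : ℝ) ^ (-s) / (2 * K)) with hδ
  have hδ0 : 0 < δ := lt_min one_pos (by positivity)
  have hδ1 : δ ≤ 1 := min_le_left _ _
  have hδK : K * δ ≤ (R : ℝ) ^ (-s) / 2 := by
    calc K * δ ≤ K * ((R : ℝ) ^ (-s) / (2 * K)) :=
          mul_le_mul_of_nonneg_left (min_le_right _ _) hK0.le
      _ = (R : ℝ) ^ (-s) / 2 := by field_simp
  set κ : ℝ := δ ^ (1 / s) / 2 with hκ
  have hκ0 : 0 < κ := by positivity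
  have hκ2 : κ ≤ 1 / 2 := by
    have : δ ^ (1 / s) ≤ 1 := Real.rpow_le_one hδ0.le hδ1 (by positivity)
    rw [hκ]
    linarith
  have hκs : (2 * κ) ^ s = δ := by
    have : 2 * κ = δ ^ (1 / s) := by rw [hκ]; ring
    rw [this, ← Real.rpow_mul hδ0.le, one_div, inv_mul_cancel₀ hs0.ne', Real.rpow_one]
  refine ⟨κ, hκ0, fun t ht0 ht => ?_⟩
  have hr : ∀ i : Idx, 0 < rr t κ ε i := by
    rintro ⟨⟨j, n, m, b⟩, hm, hc⟩
    have hmr : (0 : ℝ) < m := by exact_mod_cast hm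
    have htr : (0 : ℝ) < t j n := by exact_mod_cast ht0 j n
    change 0 < cc κ ε j n m / ((t j n : ℝ) * (m : ℝ) ^ 2)
    have := cc_pos hκ0 (ε := ε) j n m
    positivity
  have hB : ∀ h x, Psi (yy t) (rr t κ ε) R s (fun i => bs t R i = h) h x ≤
      ENNReal.ofReal ((R : ℝ) ^ (-s) / 2) := by
    intro h x
    refine (births hκ0 hκ2 hε hs2 ha t ht0 ht (by omega) hZle h x).trans
      (ENNReal.ofReal_le_ofReal ?_)
    rw [hκs]
    refine le_trans (le_of_eq ?_) hδK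
    rw [hK]
    ring
  obtain ⟨X, hX1, hX2⟩ := exists_tree hr (bs t R) (by omega) hR hs0 hN12 hB
  have hR1 : (1 : ℝ) < R := by exact_mod_cast (by omega : 1 < R)
  have hdim := H8TAK.dimH_ge_of_sep hN2 hR1 (by positivity : (0 : ℝ) < 1 / (R : ℝ)) X hX1
  refine le_trans (ENNReal.ofReal_le_ofReal hNη) (hdim.trans (dimH_mono ?_))
  rintro _ ⟨ω, rfl⟩
  intro j n m hm b
  exact good_point hκ0 hε t ht0 (hX2 ω) j n m hm b

end Pool.Agent.H66.NM
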