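import Mathlib

/-!
# NM Step: one step of the potential game

A family of dangerous intervals `[y i - r i, y i + r i]`.  `Psi A h x` is the sum over the `i ∈ A`
whose interval meets `[x, x + R^{-h}]` of `(2 r_i R^h)^s`.
-/

set_option autoImplicit false

namespace Pool.Agent.H66.NM

open Finset

variable {ι : Type*}

/-- the interval of `i` meets `[x, x + R^{-h}]`. -/
def Meets (y r : ι → ℝ) (R : ℕ) (h : ℕ) (x : ℝ) (i : ι) : Prop :=
  x - r i ≤ y i ∧ y i ≤ x + ((R : ℝ) ^ h)⁻¹ + r i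

/-- relative length to the power `s`. -/
noncomputable def tm (r : ι → ℝ) (R : ℕ) (s : ℝ) (h : ℕ) (i : ι) : ENNReal :=
  ENNReal.ofReal ((2 * r i * (R : ℝ) ^ h) ^ s)

open Classical in
/-- the potential. -/
noncomputable def Psi (y r : ι → ℝ) (R : ℕ) (s : ℝ) (A : ι → Prop) (h : ℕ) (x : ℝ) : ENNReal :=
  ∑' i, if A i ∧ Meets y r R h x i then tm r R s h i else 0

theorem meets_mono {y r : ι → ℝ} {R h : ℕ} (hR : 0 < R) {x : ℝ} {k : ℕ} (hk : k < R) {i : ι}
    (hm : Meets y r R (h + 1) (x + k / (R : ℝ) ^ (h + 1)) i) : Meets y r R h x i := by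
  have hR' : (0 : ℝ) < R := by exact_mod_cast hR
  have hp : (0 : ℝ) < (R : ℝ) ^ (h + 1) := by positivity
  have h1 : (0 : ℝ) ≤ k / (R : ℝ) ^ (h + 1) := by positivity
  have h2 : (k : ℝ) / (R : ℝ) ^ (h + 1) + ((R : ℝ) ^ (h + 1))⁻¹ ≤ ((R : ℝ) ^ h)⁻¹ := by
    have h3 : ((R : ℝ) ^ h)⁻¹ = (R : ℝ) / (R : ℝ) ^ (h + 1) := by
      rw [pow_succ]
      field_simp
    rw [h3, ← one_div, ← add_div]
    refine div_le_div_of_nonneg_right ?_ hp.le
    exact_mod_cast hk
  refine ⟨?_, ?_⟩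
  · have := hm.1
    linarith
  · have := hm.2
    linarith

/-- three consecutive integers. -/
theorem card_three (a : ℝ) (S : Finset ℕ) (hS : ∀ k ∈ S, a ≤ k ∧ (k : ℝ) ≤ a + 2) :
    S.card ≤ 3 := by
  have h : S ⊆ Finset.Icc ⌈a⌉₊ (⌈a⌉₊ + 2) := by
    intro k hk
    rw [Finset.mem_Icc]
    refine ⟨Nat.ceil_le.2 (hS k hk).1, ?_⟩
    have h1 := (hS k hk).2
    have h2 : a ≤ ⌈a⌉₊ := Nat.le_ceil a
    have h3 : (k : ℝ) ≤ ((⌈a⌉₊ + 2 : ℕ) : ℝ) := by push_cast; linarith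
    exact_mod_cast h3
  refine (Finset.card_le_card h).trans ?_
  rw [Nat.card_Icc]
  omega

/-- the number of children met by a short interval is at most three. -/
theorem card_meets {y r : ι → ℝ} {R h : ℕ} (hR : 0 < R) {x : ℝ} {i : ι}
    (hr : 2 * r i * (R : ℝ) ^ (h + 1) ≤ 1) (S : Finset ℕ)
    (hS : ∀ k ∈ S, Meets y r R (h + 1) (x + k / (R : ℝ) ^ (h + 1)) i) : S.card ≤ 3 := by
  have hR' : (0 : ℝ) < R := by exact_mod_cast hR
  have hp : (0 : ℝ) < (R : ℝ) ^ (h + 1) := by positivity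
  refine card_three ((y i - x - r i) * (R : ℝ) ^ (h + 1) - 1) S fun k hk => ?_
  obtain ⟨h1, h2⟩ := hS k hk
  have e1 : (k : ℝ) = k / (R : ℝ) ^ (h + 1) * (R : ℝ) ^ (h + 1) := by field_simp
  have e2 : ((R : ℝ) ^ (h + 1))⁻¹ * (R : ℝ) ^ (h + 1) = 1 := inv_mul_cancel₀ hp.ne'
  constructor
  · have h3 := mul_le_mul_of_nonneg_right h2 hp.le
    nlinarith
  · have h3 := mul_le_mul_of_nonneg_right h1 hp.le
    nlinarith

theorem tm_succ {r : ι → ℝ} {R : ℕ} {s : ℝ} {h : ℕ} {i : ι} (hr : 0 ≤ r i) :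
    tm r R s (h + 1) i = ENNReal.ofReal ((R : ℝ) ^ s) * tm r R s h i := by
  unfold tm
  rw [← ENNReal.ofReal_mul (Real.rpow_nonneg (Nat.cast_nonneg R) s),
    ← Real.mul_rpow (Nat.cast_nonneg R) (by positivity)]
  congr 2
  rw [pow_succ]
  ring

/-- the old potentials of the children. -/
theorem sum_children {y r : ι → ℝ} {R : ℕ} (hR : 0 < R) {s : ℝ} (hs : 0 < s) (A : ι → Prop)
    {h : ℕ} {x : ℝ} (hr : ∀ i, 0 ≤ r i)
    (hP : Psi y r R s A h x ≤ ENNReal.ofReal ((R : ℝ) ^ (-s))) :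
    ∑ k ∈ range R, Psi y r R s A (h + 1) (x + k / (R : ℝ) ^ (h + 1)) ≤ 3 := by
  classical
  have hR' : (0 : ℝ) < R := by exact_mod_cast hR
  have hRs : (0 : ℝ) < (R : ℝ) ^ s := Real.rpow_pos_of_pos hR' s
  have key : ∀ i, ∑ k ∈ range R,
      (if A i ∧ Meets y r R (h + 1) (x + k / (R : ℝ) ^ (h + 1)) i then tm r R s (h + 1) i else 0) ≤
      (3 * ENNReal.ofReal ((R : ℝ) ^ s)) * (if A i ∧ Meets y r R h x i then tm r R s h i else 0) := by
    intro i
    by_cases hA : A i ∧ Meets y r R h x i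
    · rw [if_pos hA, mul_assoc, ← tm_succ (hr i)]
      -- the interval is short
      have h1 : tm r R s h i ≤ ENNReal.ofReal ((R : ℝ) ^ (-s)) := by
        refine le_trans ?_ hP
        unfold Psi
        refine le_trans ?_ (ENNReal.le_tsum i)
        rw [if_pos hA]
      have h2 : 2 * r i * (R : ℝ) ^ (h + 1) ≤ 1 := by
        unfold tm at h1
        rw [ENNReal.ofReal_le_ofReal_iff (Real.rpow_nonneg hR'.le _)] at h1
        have h3 : (R : ℝ) ^ (-s) = ((R : ℝ)⁻¹) ^ s := by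
          rw [Real.inv_rpow hR'.le, Real.rpow_neg hR'.le]
        rw [h3] at h1
        have h4 := (Real.rpow_le_rpow_iff (by have := hr i; positivity) (by positivity) hs).1 h1
        have h5 := mul_le_mul_of_nonneg_right h4 hR'.le
        rw [inv_mul_cancel₀ hR'.ne'] at h5
        rw [pow_succ]
        linarith
      rw [← Finset.sum_filter, Finset.sum_const, nsmul_eq_mul]
      refine mul_le_mul_left ?_ _
      have h3 := card_meets (y := y) (r := r) (h := h) hR (x := x) (i := i) h2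
        ((range R).filter fun k => A i ∧ Meets y r R (h + 1) (x + k / (R : ℝ) ^ (h + 1)) i)
        (fun k hk => (mem_filter.1 hk).2.2)
      exact_mod_cast h3
    · rw [if_neg hA, mul_zero]
      refine (Finset.sum_eq_zero fun k hk => ?_).le
      rw [if_neg]
      intro h1
      exact hA ⟨h1.1, meets_mono hR (mem_range.1 hk) h1.2⟩
  unfold Psi at hP ⊢
  rw [← Summable.tsum_finsetSum (fun _ _ => ENNReal.summable)]
  refine (ENNReal.tsum_le_tsum key).trans ?_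
  rw [ENNReal.tsum_mul_left]
  refine (mul_le_mul_right hP _).trans ?_
  rw [mul_assoc, ← ENNReal.ofReal_mul hRs.le, ← Real.rpow_add hR', add_neg_cancel, Real.rpow_zero,
    ENNReal.ofReal_one, mul_one]

/-- at least half of the children are good. -/
theorem many_children {y r : ι → ℝ} {R : ℕ} (hR : 0 < R) {s : ℝ} (hs : 0 < s)
    (h12 : 12 * (R : ℝ) ^ s ≤ R) (A : ι → Prop) {h : ℕ} {x : ℝ} (hr : ∀ i, 0 ≤ r i)
    (hP : Psi y r R s A h x ≤ ENNReal.ofReal ((R : ℝ) ^ (-s))) :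
    ∃ G : Finset ℕ, G ⊆ range R ∧ R ≤ 2 * G.card ∧
      ∀ k ∈ G, Psi y r R s A (h + 1) (x + k / (R : ℝ) ^ (h + 1)) ≤
        ENNReal.ofReal ((R : ℝ) ^ (-s) / 2) := by
  classical
  have hR' : (0 : ℝ) < R := by exact_mod_cast hR
  have hRs : (0 : ℝ) < (R : ℝ) ^ s := Real.rpow_pos_of_pos hR' s
  set f : ℕ → ENNReal := fun k => Psi y r R s A (h + 1) (x + k / (R : ℝ) ^ (h + 1)) with hf
  have h1 := sum_children hR hs A hr hP
  set B := (range R).filter fun k => ¬ f k ≤ ENNReal.ofReal ((R : ℝ) ^ (-s) / 2) with hB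
  refine ⟨(range R).filter fun k => f k ≤ ENNReal.ofReal ((R : ℝ) ^ (-s) / 2), filter_subset _ _,
    ?_, fun k hk => (mem_filter.1 hk).2⟩
  have h2 : (B.card : ENNReal) * ENNReal.ofReal ((R : ℝ) ^ (-s) / 2) ≤ 3 := by
    rw [← nsmul_eq_mul, ← Finset.sum_const]
    refine le_trans ?_ h1
    refine le_trans (Finset.sum_le_sum (g := f) fun k hk => ?_)
      (Finset.sum_le_sum_of_subset (filter_subset _ _))
    exact (not_le.1 (mem_filter.1 hk).2).le
  have h3 : (B.card : ℝ) * ((R : ℝ) ^ (-s) / 2) ≤ 3 := by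
    have h4 : ENNReal.ofReal ((B.card : ℝ) * ((R : ℝ) ^ (-s) / 2)) ≤ ENNReal.ofReal 3 := by
      rw [ENNReal.ofReal_mul (Nat.cast_nonneg _), ENNReal.ofReal_natCast]
      simpa using h2
    exact (ENNReal.ofReal_le_ofReal_iff (by norm_num)).1 h4
  have h4 : (B.card : ℝ) ≤ 6 * (R : ℝ) ^ s := by
    rw [Real.rpow_neg hR'.le] at h3
    have h5 := mul_le_mul_of_nonneg_right h3 hRs.le
    have h6 : (B.card : ℝ) * (((R : ℝ) ^ s)⁻¹ / 2) * (R : ℝ) ^ s = B.card / 2 := by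
      field_simp
    rw [h6] at h5
    linarith
  have h5 : 2 * B.card ≤ R := by
    have : (2 : ℝ) * B.card ≤ R := by linarith
    exact_mod_cast this
  have h6 : ((range R).filter fun k => f k ≤ ENNReal.ofReal ((R : ℝ) ^ (-s) / 2)).card + B.card =
      (range R).card := Finset.card_filter_add_card_filter_not _
  rw [card_range] at h6
  omega

/-- numbers of one parity. -/
theorem separate {N : ℕ} (G : Finset ℕ) (hG : 2 * N ≤ G.card) :
    ∃ e : Fin N → ℕ, (∀ k, e k ∈ G) ∧ ∀ k l, k ≠ l → e k + 2 ≤ e l ∨ e l + 2 ≤ e k := by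
  classical
  obtain ⟨H, hHG, hHc, q, hq⟩ : ∃ H : Finset ℕ, H ⊆ G ∧ N ≤ H.card ∧ ∃ q, ∀ k ∈ H, k % 2 = q := by
    have h1 := Finset.card_filter_add_card_filter_not (s := G) (fun k => k % 2 = 0)
    by_cases h2 : N ≤ (G.filter fun k => k % 2 = 0).card
    · exact ⟨_, filter_subset _ _, h2, 0, fun k hk => (mem_filter.1 hk).2⟩
    · refine ⟨G.filter fun k => ¬ k % 2 = 0, filter_subset _ _, by omega, 1, fun k hk => ?_⟩
      have := (mem_filter.1 hk).2
      omega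
  obtain ⟨H', hH', hc⟩ := Finset.exists_subset_card_eq hHc
  have e := H'.equivFinOfCardEq hc
  refine ⟨fun k => (e.symm k : ℕ), fun k => hHG (hH' (e.symm k).2), fun k l hkl => ?_⟩
  have h1 := hq _ (hH' (e.symm k).2)
  have h2 := hq _ (hH' (e.symm l).2)
  have h3 : ((e.symm k : ℕ)) ≠ (e.symm l : ℕ) := by
    intro h
    exact hkl (e.symm.injective (Subtype.ext h))
  change (e.symm k : ℕ) + 2 ≤ (e.symm l : ℕ) ∨ (e.symm l : ℕ) + 2 ≤ (e.symm k : ℕ)
  omega

end Pool.Agent.H66.NM
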