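import Pool.Agent.H66.NM.Step

/-!
# NM Tree: the points which avoid all the dangerous intervals
-/

set_option autoImplicit false

namespace Pool.Agent.H66.NM

open Finset

variable {ι : Type*}

theorem Psi_le_add {y r : ι → ℝ} {R : ℕ} {s : ℝ} (A B C : ι → Prop) (h : ℕ) (x : ℝ)
    (hABC : ∀ i, A i → B i ∨ C i) :
    Psi y r R s A h x ≤ Psi y r R s B h x + Psi y r R s C h x := by
  classical
  unfold Psi
  rw [← ENNReal.tsum_add]
  refine ENNReal.tsum_le_tsum fun i => ?_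
  by_cases hm : Meets y r R h x i
  · by_cases hA : A i
    · rw [if_pos ⟨hA, hm⟩]
      rcases hABC i hA with h1 | h1
      · rw [if_pos ⟨h1, hm⟩]
        exact le_self_add
      · rw [if_pos (⟨h1, hm⟩ : C i ∧ _)]
        exact le_add_self
    · rw [if_neg (fun h2 => hA h2.1)]
      exact zero_le
  · rw [if_neg (fun h2 => hm h2.2)]
    exact zero_le

/-- the next step of the tree. -/
theorem next_step {y r : ι → ℝ} (hr : ∀ i, 0 ≤ r i) (bs : ι → ℕ) {R N : ℕ} (hN : 1 ≤ N)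
    (hRN : R = 4 * N) {s : ℝ} (hs : 0 < s) (h12 : 12 * (R : ℝ) ^ s ≤ R)
    (hB : ∀ h x, Psi y r R s (fun i => bs i = h) h x ≤ ENNReal.ofReal ((R : ℝ) ^ (-s) / 2))
    (h : ℕ) (x : ℝ) (hP : Psi y r R s (fun i => bs i ≤ h) h x ≤ ENNReal.ofReal ((R : ℝ) ^ (-s))) :
    ∃ e : Fin N → ℕ, (∀ k, e k < R) ∧ (∀ k l, k ≠ l → e k + 2 ≤ e l ∨ e l + 2 ≤ e k) ∧
      ∀ k, Psi y r R s (fun i => bs i ≤ h + 1) (h + 1) (x + e k / (R : ℝ) ^ (h + 1)) ≤
        ENNReal.ofReal ((R : ℝ) ^ (-s)) := by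
  have hR : 0 < R := by omega
  obtain ⟨G, hG1, hG2, hG3⟩ := many_children hR hs h12 (fun i => bs i ≤ h) hr hP
  obtain ⟨e, he1, he2⟩ := separate (N := N) G (by omega)
  refine ⟨e, fun k => mem_range.1 (hG1 (he1 k)), he2, fun k => ?_⟩
  refine (Psi_le_add (fun i => bs i ≤ h + 1) (fun i => bs i ≤ h) (fun i => bs i = h + 1) _ _
    (fun i hi => by omega)).trans ?_
  refine (add_le_add (hG3 _ (he1 k)) (hB _ _)).trans ?_
  rw [← ENNReal.ofReal_add (by positivity) (by positivity)]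
  exact ENNReal.ofReal_le_ofReal (by linarith)

/-- **The tree.** -/
theorem exists_tree {y r : ι → ℝ} (hr : ∀ i, 0 < r i) (bs : ι → ℕ) {R N : ℕ} (hN : 1 ≤ N)
    (hRN : R = 4 * N) {s : ℝ} (hs : 0 < s) (h12 : 12 * (R : ℝ) ^ s ≤ R)
    (hB : ∀ h x, Psi y r R s (fun i => bs i = h) h x ≤ ENNReal.ofReal ((R : ℝ) ^ (-s) / 2)) :
    ∃ X : (ℕ → Fin N) → ℝ,
      (∀ ω ω' : ℕ → Fin N, ∀ i : ℕ, (∀ j < i, ω j = ω' j) → ω i ≠ ω' i →
        (1 / (R : ℝ)) / (R : ℝ) ^ i ≤ |X ω - X ω'|) ∧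
      ∀ ω i, r i < |X ω - y i| := by
  classical
  have hR : 0 < R := by omega
  have hR' : (0 : ℝ) < R := by exact_mod_cast hR
  have hR2 : (2 : ℝ) ≤ R := by exact_mod_cast (by omega : 2 ≤ R)
  set θ : ENNReal := ENNReal.ofReal ((R : ℝ) ^ (-s)) with hθ
  have h0 : Psi y r R s (fun i => bs i ≤ 0) 0 0 ≤ θ := by
    have h1 := hB 0 0
    have h2 : (fun i => bs i ≤ 0) = fun i => bs i = 0 := by
      funext i
      simp
    rw [h2]
    refine h1.trans (ENNReal.ofReal_le_ofReal ?_)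
    have : 0 < (R : ℝ) ^ (-s) := Real.rpow_pos_of_pos hR' _
    linarith
  have hstep := next_step (fun i => (hr i).le) bs hN hRN hs h12 hB
  choose! e he1 he2 he3 using hstep
  -- the nodes
  let nx : (h : ℕ) → ℝ → Fin N → ℝ := fun h x k => x + e h x k / (R : ℝ) ^ (h + 1)
  let nd : (ℕ → Fin N) → ℕ → ℝ := fun ω h => Nat.rec 0 (fun h x => nx h x (ω h)) h
  have nd0 : ∀ ω, nd ω 0 = 0 := fun ω => rfl
  have nds : ∀ ω h, nd ω (h + 1) = nd ω h + e h (nd ω h) (ω h) / (R : ℝ) ^ (h + 1) := fun ω h => rfl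
  have hnd : ∀ ω h, Psi y r R s (fun i => bs i ≤ h) h (nd ω h) ≤ θ := by
    intro ω h
    induction h with
    | zero => rw [nd0]; exact h0
    | succ h ih => rw [nds]; exact he3 h _ ih _
  have hmono : ∀ ω, Monotone (nd ω) := by
    intro ω
    refine monotone_nat_of_le_succ fun h => ?_
    rw [nds]
    have : (0 : ℝ) ≤ e h (nd ω h) (ω h) / (R : ℝ) ^ (h + 1) := by positivity
    linarith
  have hanti : ∀ ω, Antitone (fun h => nd ω h + ((R : ℝ) ^ h)⁻¹) := by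
    intro ω
    refine antitone_nat_of_succ_le fun h => ?_
    have h1 := he1 h (nd ω h) (hnd ω h) (ω h)
    have hp : (0 : ℝ) < (R : ℝ) ^ (h + 1) := by positivity
    have h2 : (e h (nd ω h) (ω h) : ℝ) / (R : ℝ) ^ (h + 1) + ((R : ℝ) ^ (h + 1))⁻¹ ≤
        ((R : ℝ) ^ h)⁻¹ := by
      have h3 : ((R : ℝ) ^ h)⁻¹ = (R : ℝ) / (R : ℝ) ^ (h + 1) := by
        rw [pow_succ]
        field_simp
      rw [h3, ← one_div, ← add_div]
      refine div_le_div_of_nonneg_right ?_ hp.le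
      exact_mod_cast h1
    change nd ω (h + 1) + ((R : ℝ) ^ (h + 1))⁻¹ ≤ nd ω h + ((R : ℝ) ^ h)⁻¹
    rw [nds]
    linarith
  have hle : ∀ ω, nd ω ≤ fun h => nd ω h + ((R : ℝ) ^ h)⁻¹ := by
    intro ω h
    have : (0 : ℝ) ≤ ((R : ℝ) ^ h)⁻¹ := by positivity
    change nd ω h ≤ nd ω h + ((R : ℝ) ^ h)⁻¹
    linarith
  have hX : ∀ ω h, nd ω h ≤ (⨆ n, nd ω n) ∧ (⨆ n, nd ω n) ≤ nd ω h + ((R : ℝ) ^ h)⁻¹ := by
    intro ω h
    have h1 := (hmono ω).ciSup_mem_iInter_Icc_of_antitone (hanti ω) (hle ω)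
    exact Set.mem_iInter.1 h1 h
  refine ⟨fun ω => ⨆ n, nd ω n, fun ω ω' i hij hi => ?_, fun ω i => ?_⟩
  · -- separation
    have h1 : ∀ h ≤ i, nd ω h = nd ω' h := by
      intro h
      induction h with
      | zero => intro _; rw [nd0, nd0]
      | succ h ih =>
        intro hh
        rw [nds, nds, ih (by omega), hij h (by omega)]
    have h2 := nds ω i
    have h3 := nds ω' i
    rw [← h1 i le_rfl] at h3
    obtain ⟨h4, h5⟩ := hX ω (i + 1)
    obtain ⟨h6, h7⟩ := hX ω' (i + 1)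
    have hp : (0 : ℝ) < (R : ℝ) ^ (i + 1) := by positivity
    have h8 : (1 / (R : ℝ)) / (R : ℝ) ^ i = ((R : ℝ) ^ (i + 1))⁻¹ := by
      rw [pow_succ]
      field_simp
    change (1 / (R : ℝ)) / (R : ℝ) ^ i ≤ |(⨆ n, nd ω n) - ⨆ n, nd ω' n|
    rw [h8]
    have h9 := he2 i (nd ω i) (hnd ω i) (ω i) (ω' i) hi
    rcases h9 with h9 | h9
    · have h10 : (e i (nd ω i) (ω i) : ℝ) / (R : ℝ) ^ (i + 1) + 2 * ((R : ℝ) ^ (i + 1))⁻¹ ≤
          e i (nd ω i) (ω' i) / (R : ℝ) ^ (i + 1) := by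
        rw [← div_eq_mul_inv, ← add_div]
        refine div_le_div_of_nonneg_right ?_ hp.le
        exact_mod_cast h9
      rw [abs_sub_comm]
      refine le_trans ?_ (le_abs_self _)
      linarith
    · have h10 : (e i (nd ω i) (ω' i) : ℝ) / (R : ℝ) ^ (i + 1) + 2 * ((R : ℝ) ^ (i + 1))⁻¹ ≤
          e i (nd ω i) (ω i) / (R : ℝ) ^ (i + 1) := by
        rw [← div_eq_mul_inv, ← add_div]
        refine div_le_div_of_nonneg_right ?_ hp.le
        exact_mod_cast h9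
      refine le_trans ?_ (le_abs_self _)
      linarith
  · -- avoidance
    by_contra hcon
    rw [not_lt] at hcon
    change |(⨆ n, nd ω n) - y i| ≤ r i at hcon
    rw [abs_le] at hcon
    have h1 : ∀ h, bs i ≤ h → 2 * r i * (R : ℝ) ^ h ≤ 1 := by
      intro h hh
      obtain ⟨h2, h3⟩ := hX ω h
      have h4 : Meets y r R h (nd ω h) i := ⟨by linarith, by linarith⟩
      have h5 : tm r R s h i ≤ θ := by
        refine le_trans ?_ (hnd ω h)
        unfold Psi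
        refine le_trans ?_ (ENNReal.le_tsum i)
        rw [if_pos ⟨hh, h4⟩]
      unfold tm at h5
      rw [hθ, ENNReal.ofReal_le_ofReal_iff (Real.rpow_nonneg hR'.le _)] at h5
      have h6 : (R : ℝ) ^ (-s) ≤ 1 ^ s := by
        rw [Real.one_rpow]
        exact Real.rpow_le_one_of_one_le_of_nonpos (by linarith) (by linarith)
      have h7 := hr i
      exact (Real.rpow_le_rpow_iff (by positivity) (by norm_num) hs).1 (h5.trans h6)
    obtain ⟨n, hn⟩ := pow_unbounded_of_one_lt (1 / (2 * r i)) (by linarith : (1 : ℝ) < R)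
    have h2 := h1 (max n (bs i)) (le_max_right _ _)
    have h3 : (R : ℝ) ^ n ≤ (R : ℝ) ^ (max n (bs i)) :=
      pow_le_pow_right₀ (by linarith) (le_max_left _ _)
    have h4 := hr i
    rw [div_lt_iff₀ (by positivity)] at hn
    nlinarith

end Pool.Agent.H66.NM
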